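import Mathlib

open MeasureTheory Filter Topology
open scoped ENNReal

namespace Pool.Agent.Lib.LpDual

variable {Ω : Type*} [MeasurableSpace Ω] {m : Measure Ω}

/-- The pairing with an element of the conjugate space, as a functional. -/
noncomputable def pair (p : ℝ≥0∞) {p' : ℝ≥0∞} [Fact (1 ≤ p)] [Fact (1 ≤ p')]
    [ENNReal.HolderConjugate p' p] (g : Lp ℝ p' m) : Lp ℝ p m →L[ℝ] ℝ :=
  (ContinuousLinearMap.mul ℝ ℝ).lpPairing m p' p g

theorem pair_apply (p : ℝ≥0∞) {p' : ℝ≥0∞} [Fact (1 ≤ p)] [Fact (1 ≤ p')]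
    [ENNReal.HolderConjugate p' p] (g : Lp ℝ p' m) (f : Lp ℝ p m) :
    pair p g f = ∫ x, g x * f x ∂m := by
  unfold pair
  rw [ContinuousLinearMap.lpPairing_eq_integral]
  rfl

theorem abs_integral_mul_le (p : ℝ≥0∞) {p' : ℝ≥0∞} [Fact (1 ≤ p)] [Fact (1 ≤ p')]
    [ENNReal.HolderConjugate p' p] (g : Lp ℝ p' m) (f : Lp ℝ p m) :
    |∫ x, g x * f x ∂m| ≤ ‖g‖ * ‖f‖ := by
  have h1 := (ContinuousLinearMap.mul ℝ ℝ).norm_holder_apply_apply_le (r := 1) g f
  have h2 : ‖ContinuousLinearMap.mul ℝ ℝ‖ ≤ 1 := ContinuousLinearMap.opNorm_mul_le ℝ ℝ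
  have h3 : ∫ x, g x * f x ∂m = ∫ x, ((ContinuousLinearMap.mul ℝ ℝ).holder 1 g f) x ∂m := by
    apply integral_congr_ae
    filter_upwards [(ContinuousLinearMap.mul ℝ ℝ).coeFn_holder (r := 1) g f] with x hx
    rw [hx]; rfl
  rw [h3]
  have h4 : |∫ x, ((ContinuousLinearMap.mul ℝ ℝ).holder 1 g f) x ∂m|
      ≤ ‖(ContinuousLinearMap.mul ℝ ℝ).holder 1 g f‖ := by
    rw [L1.norm_eq_integral_norm]
    exact norm_integral_le_integral_norm (fun x => ((ContinuousLinearMap.mul ℝ ℝ).holder 1 g f) x)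
  refine h4.trans (h1.trans ?_)
  have : 0 ≤ ‖g‖ * ‖f‖ := by positivity
  nlinarith

/-- The norm of an element of `L^p` in terms of a real integral. -/
theorem norm_rpow_eq {p : ℝ≥0∞} [Fact (1 ≤ p)] (hp : p ≠ ⊤) (f : Lp ℝ p m) :
    ‖f‖ ^ p.toReal = ∫ x, |f x| ^ p.toReal ∂m := by
  have hp0 : p ≠ 0 := (lt_of_lt_of_le zero_lt_one (Fact.out : 1 ≤ p)).ne'
  have hpos : 0 < p.toReal := ENNReal.toReal_pos hp0 hp
  rw [Lp.norm_def, (Lp.memLp f).eLpNorm_eq_integral_rpow_norm hp0 hp,
    ENNReal.toReal_ofReal (by positivity), ← Real.rpow_mul (by positivity),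
    inv_mul_cancel₀ hpos.ne', Real.rpow_one]
  rfl

theorem integrable_abs_rpow {p : ℝ≥0∞} [Fact (1 ≤ p)] (hp : p ≠ ⊤) (f : Lp ℝ p m) :
    Integrable (fun x => |f x| ^ p.toReal) m := by
  have hp0 : p ≠ 0 := (lt_of_lt_of_le zero_lt_one (Fact.out : 1 ≤ p)).ne'
  exact (Lp.memLp f).integrable_norm_rpow hp0 hp

private theorem ind_hasSum [IsFiniteMeasure m] {p : ℝ≥0∞} [Fact (1 ≤ p)] (hp : p ≠ ⊤)
    {s : ℕ → Set Ω} (hs : ∀ i, MeasurableSet (s i)) (hd : Pairwise (Function.onFun Disjoint s))
    (Λ : Lp ℝ p m →L[ℝ] ℝ) :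
    HasSum (fun i => Λ (indicatorConstLp p (hs i) (measure_ne_top m _) (1 : ℝ)))
      (Λ (indicatorConstLp p (MeasurableSet.iUnion hs) (measure_ne_top m _) (1 : ℝ))) := by
  classical
  have hp0 : p ≠ 0 := (lt_of_lt_of_le zero_lt_one (Fact.out : 1 ≤ p)).ne'
  have hpos : 0 < p.toReal := ENNReal.toReal_pos hp0 hp
  apply Λ.hasSum
  have hsum : HasSum (fun i => m.real (s i)) (m.real (⋃ i, s i)) := by
    have := hasSum_integral_iUnion (μ := m) (f := fun _ => (1 : ℝ)) hs hd
      (integrable_const _).integrableOn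
    simpa using this
  have hfin : ∀ t : Finset ℕ,
      ∑ i ∈ t, indicatorConstLp p (hs i) (measure_ne_top m _) (1 : ℝ)
        = indicatorConstLp p (t.measurableSet_biUnion (fun i _ => hs i))
          (measure_ne_top m _) (1 : ℝ) := by
    intro t
    induction t using Finset.induction_on with
    | empty => simp
    | insert a t ha ih =>
      rw [Finset.sum_insert ha, ih, ← indicatorConstLp_disjoint_union]
      · congr 1
        simp
      · rw [Set.disjoint_iUnion₂_right]
        intro i hi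
        exact hd (by rintro rfl; exact ha hi)
  rw [HasSum, tendsto_iff_norm_sub_tendsto_zero]
  have hlim : Tendsto (fun t : Finset ℕ =>
      (m.real (⋃ i, s i) - ∑ i ∈ t, m.real (s i)) ^ (1 / p.toReal))
      (SummationFilter.unconditional ℕ).filter (𝓝 0) := by
    have h1 : Tendsto (fun t : Finset ℕ => m.real (⋃ i, s i) - ∑ i ∈ t, m.real (s i))
        (SummationFilter.unconditional ℕ).filter (𝓝 0) := by
      have := (tendsto_const_nhds (x := m.real (⋃ i, s i))).sub hsum
      simpa using this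
    have h2 := h1.rpow_const (p := 1 / p.toReal) (Or.inr (by positivity))
    rwa [Real.zero_rpow (by positivity)] at h2
  refine hlim.congr fun t => ?_
  rw [hfin, norm_sub_rev]
  have hsub : (⋃ i ∈ t, s i) ⊆ ⋃ i, s i := Set.iUnion₂_subset fun i _ => Set.subset_iUnion s i
  have hm := t.measurableSet_biUnion (fun i _ => hs i)
  have : indicatorConstLp p (MeasurableSet.iUnion hs) (measure_ne_top m _) (1 : ℝ)
      = indicatorConstLp p hm (measure_ne_top m _) (1 : ℝ)
        + indicatorConstLp p ((MeasurableSet.iUnion hs).diff hm) (measure_ne_top m _) (1 : ℝ) := by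
    rw [← indicatorConstLp_disjoint_union _ _ _ _ Set.disjoint_sdiff_right]
    congr 1
    rw [Set.union_sdiff_cancel hsub]
  rw [this, add_sub_cancel_left, norm_indicatorConstLp hp0 hp, norm_one, one_mul,
    measureReal_sdiff hsub hm, measureReal_biUnion_finset (fun i _ j _ hij => hd hij)
      (fun i _ => hs i)]

private theorem exists_density [IsFiniteMeasure m] {p : ℝ≥0∞} [Fact (1 ≤ p)] (hp : p ≠ ⊤)
    (Λ : Lp ℝ p m →L[ℝ] ℝ) :
    ∃ g : Ω → ℝ, Measurable g ∧ Integrable g m ∧ ∀ s (hs : MeasurableSet s),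
      Λ (indicatorConstLp p hs (measure_ne_top m _) (1 : ℝ)) = ∫ x in s, g x ∂m := by
  classical
  let ν : SignedMeasure Ω :=
    { measureOf' := fun s => if hs : MeasurableSet s then
        Λ (indicatorConstLp p hs (measure_ne_top m _) (1 : ℝ)) else 0
      empty' := by simp
      not_measurable' := fun s hs => by simp [hs]
      m_iUnion' := fun s hs hd => by
        simp only [hs, MeasurableSet.iUnion hs, dite_true]
        exact ind_hasSum hp hs hd Λ }
  have hν : ∀ s (hs : MeasurableSet s),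
      ν s = Λ (indicatorConstLp p hs (measure_ne_top m _) (1 : ℝ)) := by
    intro s hs
    show (if hs : MeasurableSet s then
        Λ (indicatorConstLp p hs (measure_ne_top m _) (1 : ℝ)) else 0) = _
    simp [hs]
  have hac : ν ≪ᵥ m.toENNRealVectorMeasure := by
    refine VectorMeasure.AbsolutelyContinuous.mk fun s hs h0 => ?_
    rw [Measure.toENNRealVectorMeasure_apply_measurable hs] at h0
    rw [hν s hs]
    have : indicatorConstLp p hs (measure_ne_top m _) (1 : ℝ) = 0 := by
      apply Lp.ext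
      filter_upwards [indicatorConstLp_coeFn_notMem (p := p) (hs := hs)
        (hμs := measure_ne_top m _) (c := (1 : ℝ)), measure_eq_zero_iff_ae_notMem.1 h0,
        Lp.coeFn_zero ℝ p m] with x h1 h2 h3
      rw [h1 h2, h3]; rfl
    rw [this, map_zero]
  refine ⟨ν.rnDeriv m, ν.measurable_rnDeriv m, ν.integrable_rnDeriv m, fun s hs => ?_⟩
  have := SignedMeasure.withDensityᵥ_rnDeriv_eq ν m hac
  rw [← hν s hs]
  conv_lhs => rw [← this]
  rw [withDensityᵥ_apply (ν.integrable_rnDeriv m) hs]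

private theorem ext_ind [IsFiniteMeasure m] {p : ℝ≥0∞} [Fact (1 ≤ p)] (hp : p ≠ ⊤)
    (Λ₁ Λ₂ : Lp ℝ p m →L[ℝ] ℝ)
    (h : ∀ s (hs : MeasurableSet s), Λ₁ (indicatorConstLp p hs (measure_ne_top m _) (1 : ℝ))
      = Λ₂ (indicatorConstLp p hs (measure_ne_top m _) (1 : ℝ))) (f : Lp ℝ p m) :
    Λ₁ f = Λ₂ f := by
  induction f using Lp.induction hp with
  | indicatorConst c hs hμs =>
    rename_i s
    have : ((Lp.simpleFunc.indicatorConst p hs hμs.ne c : Lp.simpleFunc ℝ p m) : Lp ℝ p m)
        = c • indicatorConstLp p hs (measure_ne_top m _) (1 : ℝ) := by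
      rw [Lp.simpleFunc.coe_indicatorConst]
      apply Lp.ext
      filter_upwards [indicatorConstLp_coeFn (p := p) (hs := hs) (hμs := hμs.ne) (c := c),
        Lp.coeFn_smul c (indicatorConstLp p hs (measure_ne_top m _) (1 : ℝ)),
        indicatorConstLp_coeFn (p := p) (hs := hs) (hμs := measure_ne_top m _) (c := (1 : ℝ))]
        with x h1 h2 h3
      rw [h1, h2, Pi.smul_apply, h3]
      by_cases hx : x ∈ s <;> simp [hx]
    rw [this, map_smul, map_smul, h]
  | add hf hg _ h1 h2 => rw [map_add, map_add, h1, h2]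
  | isClosed => exact isClosed_eq Λ₁.continuous Λ₂.continuous

/-- Every bounded functional on `L^p` of a finite measure, `1 < p < ∞`, is given by an element of
the conjugate space. -/
theorem exists_rep [IsFiniteMeasure m] (p p' : ℝ≥0∞) [Fact (1 ≤ p)] [Fact (1 ≤ p')]
    [ENNReal.HolderConjugate p' p] (hp : p ≠ ⊤) (hp' : p' ≠ ⊤) (Λ : Lp ℝ p m →L[ℝ] ℝ) :
    ∃ g : Lp ℝ p' m, ∀ f, Λ f = ∫ x, g x * f x ∂m := by
  classical
  obtain ⟨g, hgm, hgi, hg⟩ := exists_density hp Λ
  have hp0 : p ≠ 0 := (lt_of_lt_of_le zero_lt_one (Fact.out : 1 ≤ p)).ne'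
  have hp0' : p' ≠ 0 := (lt_of_lt_of_le zero_lt_one (Fact.out : 1 ≤ p')).ne'
  have hpos : 0 < p.toReal := ENNReal.toReal_pos hp0 hp
  have hpos' : 0 < p'.toReal := ENNReal.toReal_pos hp0' hp'
  set a := p.toReal with ha
  set b := p'.toReal with hb
  have hab : b⁻¹ + a⁻¹ = 1 := by
    have h := ENNReal.HolderConjugate.inv_add_inv_eq_one p' p
    have h2 := congrArg ENNReal.toReal h
    rw [ENNReal.toReal_add (ENNReal.inv_ne_top.2 hp0') (ENNReal.inv_ne_top.2 hp0)] at h2
    simpa using h2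
  have hb1 : 1 < b := by
    have : 0 < a⁻¹ := by positivity
    have h3 : b⁻¹ < 1 := by linarith
    exact (inv_lt_one₀ hpos').1 h3
  have hba : (b - 1) * a = b := by
    field_simp at hab
    nlinarith
  -- truncations
  have key : ∀ n : ℕ, ∫ x in {x | |g x| ≤ n}, |g x| ^ b ∂m ≤ ‖Λ‖ ^ b := by
    intro n
    set E := {x | |g x| ≤ n} with hE
    have hEm : MeasurableSet E := measurableSet_le hgm.abs measurable_const
    have hgb : MemLp (E.indicator g) p' m := by
      refine MemLp.of_bound (hgm.indicator hEm).aestronglyMeasurable n (ae_of_all _ fun x => ?_)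
      by_cases hx : x ∈ E
      · rw [Set.indicator_of_mem hx]; exact hx
      · simp [hx]
    let χ : Lp ℝ ⊤ m := indicatorConstLp ⊤ hEm (measure_ne_top m _) (1 : ℝ)
    let R : Lp ℝ p m →L[ℝ] Lp ℝ p m := (ContinuousLinearMap.mul ℝ ℝ).holderL m ⊤ p p χ
    have hR : ∀ f : Lp ℝ p m, R f =ᵐ[m] E.indicator f := by
      intro f
      filter_upwards [(ContinuousLinearMap.mul ℝ ℝ).coeFn_holder (r := p) χ f,
        indicatorConstLp_coeFn (p := ⊤) (hs := hEm) (hμs := measure_ne_top m _) (c := (1 : ℝ))]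
        with x h1 h2
      have : R f x = (ContinuousLinearMap.mul ℝ ℝ).holder p χ f x := rfl
      rw [this, h1]
      show χ x * f x = _
      rw [show χ x = _ from h2]
      by_cases hx : x ∈ E <;> simp [hx]
    have heq : ∀ f, Λ (R f) = pair p (hgb.toLp _) f := by
      apply ext_ind hp (Λ.comp R)
      intro s hs
      have h1 : R (indicatorConstLp p hs (measure_ne_top m _) (1 : ℝ))
          = indicatorConstLp p (hEm.inter hs) (measure_ne_top m _) (1 : ℝ) := by
        apply Lp.ext
        filter_upwards [hR (indicatorConstLp p hs (measure_ne_top m _) (1 : ℝ)),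
          indicatorConstLp_coeFn (p := p) (hs := hs) (hμs := measure_ne_top m _) (c := (1 : ℝ)),
          indicatorConstLp_coeFn (p := p) (hs := hEm.inter hs) (hμs := measure_ne_top m _)
            (c := (1 : ℝ))] with x h1 h2 h3
        rw [h1, h3]
        by_cases hx : x ∈ E <;> by_cases hx' : x ∈ s <;> simp [hx, hx', h2]
      rw [ContinuousLinearMap.comp_apply, h1, hg, pair_apply, ← integral_indicator (hEm.inter hs)]
      apply integral_congr_ae
      filter_upwards [hgb.coeFn_toLp,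
        indicatorConstLp_coeFn (p := p) (hs := hs) (hμs := measure_ne_top m _) (c := (1 : ℝ))]
        with x h1 h2
      rw [h1, h2]
      by_cases hx : x ∈ E <;> by_cases hx' : x ∈ s <;> simp [hx, hx']
    let φ : Ω → ℝ := E.indicator fun x => |g x| ^ (b - 1) * SignType.sign (g x)
    have hsm : Measurable fun x => (SignType.sign (g x) : ℝ) := by
      have : (fun x => (SignType.sign (g x) : ℝ))
          = fun x => if 0 < g x then 1 else if g x < 0 then -1 else 0 := by
        funext x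
        rcases lt_trichotomy (g x) 0 with h | h | h
        · simp [h, h.not_gt]
        · simp [h]
        · simp [h]
      rw [this]
      exact Measurable.ite (measurableSet_lt measurable_const hgm) measurable_const
        (Measurable.ite (measurableSet_lt hgm measurable_const) measurable_const measurable_const)
    have hφm : Measurable φ := ((hgm.abs.pow_const _).mul hsm).indicator hEm
    have hφabs : ∀ x, |φ x| = E.indicator (fun x => |g x| ^ (b - 1)) x := by
      intro x
      by_cases hx : x ∈ E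
      · simp only [φ, Set.indicator_of_mem hx, abs_mul]
        rcases lt_trichotomy (g x) 0 with h | h | h
        · simp [h, abs_of_nonneg (Real.rpow_nonneg (abs_nonneg (g x)) (b - 1))]
        · simp [h, Real.zero_rpow (show b - 1 ≠ 0 by linarith)]
        · simp [h, abs_of_nonneg (Real.rpow_nonneg (abs_nonneg (g x)) (b - 1))]
      · simp [φ, hx]
    have hφb : MemLp φ p m := by
      refine MemLp.of_bound hφm.aestronglyMeasurable ((n : ℝ) ^ (b - 1)) (ae_of_all _ fun x => ?_)
      rw [Real.norm_eq_abs, hφabs]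
      by_cases hx : x ∈ E
      · rw [Set.indicator_of_mem hx]
        exact Real.rpow_le_rpow (abs_nonneg _) hx (by linarith)
      · rw [Set.indicator_of_notMem hx]; positivity
    set I := ∫ x in E, |g x| ^ b ∂m with hI
    have hI0 : 0 ≤ I := integral_nonneg fun x => by positivity
    have h1 : Λ (hφb.toLp _) = I := by
      have : R (hφb.toLp _) = hφb.toLp _ := by
        apply Lp.ext
        filter_upwards [hR (hφb.toLp _), hφb.coeFn_toLp] with x h1 h2
        rw [h1]
        by_cases hx : x ∈ E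
        · simp [hx]
        · simp [hx, h2, φ]
      rw [← this, heq, pair_apply, hI, ← integral_indicator hEm]
      apply integral_congr_ae
      filter_upwards [hgb.coeFn_toLp, hφb.coeFn_toLp] with x h1 h2
      rw [h1, h2]
      by_cases hx : x ∈ E
      · simp only [φ, Set.indicator_of_mem hx]
        have h3 : g x * (SignType.sign (g x) : ℝ) = |g x| := by
          rw [mul_comm]; exact sign_mul_self _
        rw [mul_left_comm, h3, ← Real.rpow_add_one' (abs_nonneg _) (by linarith)]
        congr 1; ring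
      · simp [hx]
    have h2 : ‖hφb.toLp _‖ ^ a = I := by
      rw [norm_rpow_eq hp, hI, ← integral_indicator hEm]
      apply integral_congr_ae
      filter_upwards [hφb.coeFn_toLp] with x h1
      rw [h1, hφabs]
      by_cases hx : x ∈ E
      · simp only [Set.indicator_of_mem hx]
        rw [← Real.rpow_mul (abs_nonneg _), hba]
      · simp only [Set.indicator_of_notMem hx]
        exact Real.zero_rpow hpos.ne'
    have h3 : I ≤ ‖Λ‖ * ‖hφb.toLp _‖ := by
      rw [← h1]; exact (le_abs_self _).trans (Λ.le_opNorm _)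
    set t := ‖hφb.toLp _‖ with ht
    have ht0 : 0 ≤ t := norm_nonneg _
    rcases ht0.eq_or_lt with h0 | h0
    · rw [← h2, ← h0, Real.zero_rpow hpos.ne']; positivity
    · have h4 : t ^ (a - 1) ≤ ‖Λ‖ := by
        have : t ^ a = t ^ (a - 1) * t := by
          rw [← Real.rpow_add_one h0.ne']; congr 1; ring
        rw [← h2, this] at h3
        exact le_of_mul_le_mul_right h3 h0
      have h5 := Real.rpow_le_rpow (by positivity) h4 hpos'.le
      rw [← Real.rpow_mul ht0] at h5
      have h6 : (a - 1) * b = a := by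
        field_simp at hab
        nlinarith
      rw [h6, h2] at h5
      exact h5
  have hgL : MemLp g p' m := by
    rw [← integrable_norm_rpow_iff hgm.aestronglyMeasurable hp0' hp']
    have hmeas : Measurable fun x => |g x| ^ b := hgm.abs.pow_const _
    have hE : ∀ n : ℕ, MeasurableSet {x | |g x| ≤ n} :=
      fun n => measurableSet_le hgm.abs measurable_const
    have hcov : AECover m atTop (fun n : ℕ => {x | |g x| ≤ n}) := by
      refine ⟨ae_of_all _ fun x => ?_, hE⟩
      obtain ⟨N, hN⟩ := exists_nat_ge |g x|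
      filter_upwards [eventually_ge_atTop N] with n hn
      exact hN.trans (by exact_mod_cast hn)
    refine hcov.integrable_of_integral_bounded_of_nonneg_ae (‖Λ‖ ^ b) (fun n => ?_)
      (ae_of_all _ fun x => by positivity) (Eventually.of_forall key)
    refine Measure.integrableOn_of_bounded (M := (n : ℝ) ^ b) (measure_ne_top _ _)
      hmeas.aestronglyMeasurable ?_
    filter_upwards [ae_restrict_mem (hE n)] with x hx
    rw [Real.norm_eq_abs, abs_of_nonneg (by positivity)]
    exact Real.rpow_le_rpow (abs_nonneg _) hx hpos'.le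
  refine ⟨hgL.toLp _, fun f => ?_⟩
  rw [← pair_apply p]
  apply ext_ind hp
  intro s hs
  rw [hg, pair_apply, ← integral_indicator hs]
  apply integral_congr_ae
  filter_upwards [hgL.coeFn_toLp,
    indicatorConstLp_coeFn (p := p) (hs := hs) (hμs := measure_ne_top m _) (c := (1 : ℝ))]
    with x h1 h2
  rw [h1, h2]
  by_cases hx : x ∈ s <;> simp [hx]

/-- Bounded families in `L^p`, `1 < p < ∞`, converge weakly along ultrafilters. -/
theorem exists_weak_lim [IsFiniteMeasure m] {p : ℝ≥0∞} [Fact (1 ≤ p)] (hp1 : 1 < p) (hp : p ≠ ⊤)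
    {ι : Type*} (U : Ultrafilter ι) (F : ι → Lp ℝ p m) (C : ℝ) (hF : ∀ᶠ i in U, ‖F i‖ ≤ C) :
    ∃ y : Lp ℝ p m, ∀ ℓ : Lp ℝ p m →L[ℝ] ℝ, Tendsto (fun i => ℓ (F i)) U (𝓝 (ℓ y)) := by
  set p' := ENNReal.conjExponent p with hp'def
  have hc : ENNReal.HolderConjugate p p' := ENNReal.HolderConjugate.conjExponent hp1.le
  have hc' : ENNReal.HolderConjugate p' p := hc.symm
  have : Fact (1 ≤ p') := ⟨ENNReal.HolderConjugate.one_le p' p⟩
  have hp' : p' ≠ ⊤ := by
    intro h
    have := ENNReal.HolderConjugate.inv_add_inv_eq_one p p'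
    rw [h] at this
    simp at this
    exact hp1.ne' this
  have hlim : ∀ g : Lp ℝ p' m, ∃ r : ℝ, |r| ≤ ‖g‖ * C ∧
      Tendsto (fun i => pair p g (F i)) U (𝓝 r) := by
    intro g
    have h1 : ∀ᶠ i in U, pair p g (F i) ∈ Set.Icc (-(‖g‖ * C)) (‖g‖ * C) := by
      filter_upwards [hF] with i hi
      rw [pair_apply]
      exact abs_le.1 ((abs_integral_mul_le p g (F i)).trans (by gcongr))
    obtain ⟨r, hr, hr2⟩ := isCompact_Icc.ultrafilter_le_nhds (U.map fun i => pair p g (F i))
      (le_principal_iff.2 h1)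
    exact ⟨r, abs_le.2 hr, hr2⟩
  choose r hr1 hr2 using hlim
  have hpl : ∀ g : Lp ℝ p' m, ∀ f : Lp ℝ p m,
      pair p g f = (ContinuousLinearMap.mul ℝ ℝ).lpPairing m p' p g f := fun _ _ => rfl
  let Λ₀ : Lp ℝ p' m →ₗ[ℝ] ℝ :=
    { toFun := r
      map_add' := fun g₁ g₂ => by
        refine tendsto_nhds_unique (hr2 (g₁ + g₂)) ?_
        simp only [hpl, map_add, add_apply]
        exact (hr2 g₁).add (hr2 g₂)
      map_smul' := fun c g => by
        refine tendsto_nhds_unique (hr2 (c • g)) ?_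
        simp only [hpl, map_smul, smul_apply, smul_eq_mul, RingHom.id_apply]
        exact (hr2 g).const_mul c }
  let Λ : Lp ℝ p' m →L[ℝ] ℝ := Λ₀.mkContinuous C fun g => by
    rw [mul_comm]; exact hr1 g
  obtain ⟨y, hy⟩ := exists_rep p' p hp' hp Λ
  refine ⟨y, fun ℓ => ?_⟩
  obtain ⟨g, hg⟩ := exists_rep p p' hp hp' ℓ
  have h1 : ℓ y = r g := by
    rw [hg, show r g = Λ g from rfl, hy]
    simp only [mul_comm]
  rw [h1]
  refine (hr2 g).congr fun i => ?_
  rw [hg, pair_apply]

/-- A weak limit of points of a closed convex set lies in the set. -/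
theorem mem_of_weak_lim {E : Type*} [NormedAddCommGroup E] [NormedSpace ℝ E] {ι : Type*}
    {l : Filter ι} [l.NeBot] {F : ι → E} {y : E}
    (h : ∀ ℓ : E →L[ℝ] ℝ, Tendsto (fun i => ℓ (F i)) l (𝓝 (ℓ y))) {K : Set E}
    (hK : Convex ℝ K) (hc : IsClosed K) (hF : ∀ᶠ i in l, F i ∈ K) : y ∈ K := by
  by_contra hy
  obtain ⟨ℓ, u, h1, h2⟩ := geometric_hahn_banach_point_closed hK hc hy
  have : u ≤ ℓ y := ge_of_tendsto (h ℓ) (hF.mono fun i hi => (h2 _ hi).le)
  linarith

theorem weak_lim_unique {E : Type*} [NormedAddCommGroup E] [NormedSpace ℝ E] {ι : Type*}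
    {l : Filter ι} [l.NeBot] {F : ι → E} {y z : E}
    (h : ∀ ℓ : E →L[ℝ] ℝ, Tendsto (fun i => ℓ (F i)) l (𝓝 (ℓ y)))
    (h' : ∀ ℓ : E →L[ℝ] ℝ, Tendsto (fun i => ℓ (F i)) l (𝓝 (ℓ z))) : y = z :=
  (SeparatingDual.eq_iff_forall_dual_eq (R := ℝ)).2 fun ℓ => tendsto_nhds_unique (h ℓ) (h' ℓ)

end Pool.Agent.Lib.LpDual
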